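import Pool.Agent.H84.LSB.TargetsHL

/-!
MP_ee74d2_an, dimension 3, row HCH of the board hlm_modules: bumps adapted to the planks.
-/

set_option autoImplicit false

namespace Pool.Agent.H55.HLM

open MeasureTheory Set
open Pool.Agent.H83.G
open Pool.Agent.H88.B2
open Pool.Agent.H84.LSB
open Pool.Agent.H82.FP (Tu)
open scoped ENNReal NNReal RealInnerProductSpace

section

variable {m : ℕ}

/-- product weight -/
noncomputable def hpw (N : ℕ) (x : Z m) : ℝ := ((1 + |x.1|) ^ N)⁻¹ * ((1 + ‖x.2‖) ^ N)⁻¹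

theorem hpw_pos (N : ℕ) (x : Z m) : 0 < hpw N x := by
  unfold hpw; positivity

theorem abs_fst_le (x : Z m) : |x.1| ≤ ‖x‖ := by
  have := norm_fst_le x
  simpa [Real.norm_eq_abs] using this

theorem one_add_fst (x y : Z m) : 1 + |x.1| ≤ (1 + |y.1|) * (1 + ‖x - y‖) := by
  have h1 : |x.1| ≤ |y.1| + |(x - y).1| := by
    have : x.1 = y.1 + (x - y).1 := by simp
    calc |x.1| = |y.1 + (x - y).1| := by rw [← this]
      _ ≤ _ := abs_add_le _ _
  have h2 := abs_fst_le (x - y)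
  nlinarith [abs_nonneg y.1, norm_nonneg (x - y)]

theorem one_add_snd (x y : Z m) : 1 + ‖x.2‖ ≤ (1 + ‖y.2‖) * (1 + ‖x - y‖) := by
  have h1 : ‖x.2‖ ≤ ‖y.2‖ + ‖(x - y).2‖ := by
    have : x.2 = y.2 + (x - y).2 := by simp
    calc ‖x.2‖ = ‖y.2 + (x - y).2‖ := by rw [← this]
      _ ≤ _ := norm_add_le _ _
  have h2 := norm_snd_le (x - y)
  nlinarith [norm_nonneg y.2, norm_nonneg (x - y)]

theorem hpw_mul_wt (N : ℕ) (x y : Z m) : hpw N y * wt (2 * N) (x - y) ≤ hpw N x := by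
  unfold hpw wt
  rw [← mul_inv, ← mul_inv, ← mul_inv]
  apply inv_anti₀ (by positivity)
  have h1 := pow_le_pow_left₀ (by positivity) (one_add_fst x y) N
  have h2 := pow_le_pow_left₀ (by positivity) (one_add_snd x y) N
  have h3 := mul_le_mul h1 h2 (by positivity) (by positivity)
  refine h3.trans (le_of_eq ?_)
  rw [mul_pow, mul_pow, two_mul, pow_add]
  ring

/-- a finite box of lattice points -/
noncomputable def hbox (m : ℕ) (B : ℤ) : Finset (Zi m) :=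
  (Finset.Icc (-B) B) ×ˢ ((Fintype.piFinset fun _ => Finset.Icc (-B) B) ×ˢ (Finset.Icc (-B) B))

theorem mem_hbox (B : ℤ) (l : Zi m) (h : ‖zc l‖ ≤ (B : ℝ)) : l ∈ hbox m B := by
  have key : ∀ a : ℤ, |(a : ℝ)| ≤ (B : ℝ) → a ∈ Finset.Icc (-B) B := by
    intro a ha
    rw [Finset.mem_Icc]
    have := abs_le.mp ha
    constructor
    · exact_mod_cast this.1
    · exact_mod_cast this.2
  have h1 : |((l.1 : ℤ) : ℝ)| ≤ (B : ℝ) := (abs_fst_le (zc l)).trans h
  have h2 : ‖(zc l).2‖ ≤ (B : ℝ) := (norm_snd_le (zc l)).trans h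
  have h3 : ‖(zc l).2.1‖ ≤ (B : ℝ) := (norm_fst_le (zc l).2).trans h2
  have h4 : |((l.2.2 : ℤ) : ℝ)| ≤ (B : ℝ) := by
    have := (norm_snd_le (zc l).2).trans h2
    simpa [zc, Real.norm_eq_abs] using this
  unfold hbox
  rw [Finset.mem_product, Finset.mem_product]
  refine ⟨key _ h1, ?_, key _ h4⟩
  rw [Fintype.mem_piFinset]
  intro i
  apply key
  have h5 : ‖(zc l).2.1 i‖ ≤ ‖(zc l).2.1‖ := PiLp.norm_apply_le _ i
  have h6 : (zc l).2.1 i = ((l.2.1 i : ℤ) : ℝ) := by simp [zc]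
  rw [h6, Real.norm_eq_abs] at h5
  exact h5.trans h3

/-- linearity of the pairing -/
theorem ph_sub_left (x y ζ : Z m) : ph (x - y) ζ = ph x ζ - ph y ζ := by
  unfold ph
  simp only [Prod.fst_sub, Prod.snd_sub, inner_sub_left]
  ring

theorem ph_smul_left (c : ℝ) (x ζ : Z m) : ph (c • x) ζ = c * ph x ζ := by
  unfold ph
  simp only [Prod.smul_fst, Prod.smul_snd, inner_smul_left, smul_eq_mul]
  simp
  ring

theorem ph_smul_right (c : ℝ) (x ζ : Z m) : ph x (c • ζ) = c * ph x ζ := by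
  unfold ph
  simp only [Prod.smul_fst, Prod.smul_snd, inner_smul_right, smul_eq_mul]
  ring

theorem e_add (x y : ℝ) : e (x + y) = e x * e y := by
  unfold e
  rw [← Complex.exp_add]
  congr 1
  push_cast
  ring

theorem contDiff_e : ContDiff ℝ (⊤ : ℕ∞) e := by
  unfold e
  apply ContDiff.cexp
  apply ContDiff.mul _ contDiff_const
  exact Complex.ofRealCLM.contDiff.comp (contDiff_const.mul contDiff_id)

theorem contDiff_ph (z : Z m) : ContDiff ℝ (⊤ : ℕ∞) (fun ζ : Z m => ph z ζ) := by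
  unfold ph
  apply ContDiff.add
  · apply ContDiff.add
    · exact contDiff_const.mul contDiff_fst
    · exact contDiff_const.inner ℝ (contDiff_fst.comp contDiff_snd)
  · exact contDiff_const.mul (contDiff_snd.comp contDiff_snd)

/-- modulation -/
noncomputable def hH (Ξ : Z m → ℂ) (J : Finset (Zi m)) (p : Zi m → ℝ) (b : Z m) (ζ : Z m) : ℂ :=
  (∑ j ∈ J, (p j : ℂ) * e (-(ph (b + zc j) ζ))) * Ξ ζ

theorem hH_TC (Ξ : Z m → ℂ) (hΞ : TC Ξ) (J : Finset (Zi m)) (p : Zi m → ℝ) (b : Z m) :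
    TC (hH Ξ J p b) := by
  constructor
  · unfold hH
    apply ContDiff.mul _ hΞ.1
    apply ContDiff.sum
    intro j _
    apply contDiff_const.mul
    exact contDiff_e.comp (contDiff_ph _).neg
  · exact hΞ.2.mul_left

theorem TC_integrable (G : Z m → ℂ) (hG : TC G) (z : Z m) :
    Integrable (fun ζ : Z m => e (ph z ζ) * G ζ) := by
  apply Continuous.integrable_of_hasCompactSupport
  · exact (contDiff_e.continuous.comp (contDiff_ph z).continuous).mul hG.1.continuous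
  · exact hG.2.mul_left

theorem hH_TF (Ξ : Z m → ℂ) (χ : Z m → ℝ) (hΞ : TC Ξ) (hχ : ∀ z, (χ z : ℂ) = TF Ξ z)
    (J : Finset (Zi m)) (p : Zi m → ℝ) (b x : Z m) :
    TF (hH Ξ J p b) x = ((∑ j ∈ J, p j * χ (x - b - zc j) : ℝ) : ℂ) := by
  have h1 : ∀ ζ : Z m, e (ph x ζ) * hH Ξ J p b ζ =
      ∑ j ∈ J, (p j : ℂ) * (e (ph (x - b - zc j) ζ) * Ξ ζ) := by
    intro ζ
    unfold hH
    rw [Finset.sum_mul, Finset.mul_sum]
    apply Finset.sum_congr rfl
    intro j _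
    have : ph (x - b - zc j) ζ = ph x ζ + -(ph (b + zc j) ζ) := by
      rw [sub_sub, ph_sub_left]
      ring
    rw [this, e_add]
    ring
  unfold TF
  simp_rw [h1]
  rw [integral_finsetSum]
  · push_cast
    apply Finset.sum_congr rfl
    intro j _
    rw [integral_const_mul, hχ]
    rfl
  · intro j _
    exact (TC_integrable Ξ hΞ _).const_mul _

private theorem haarY (m : ℕ) : (volume : Measure (E m × ℝ)).IsAddHaarMeasure :=
  inferInstanceAs ((volume : Measure (E m)).prod (volume : Measure ℝ)).IsAddHaarMeasure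

private theorem haarZ (m : ℕ) : (volume : Measure (Z m)).IsAddHaarMeasure := by
  have := haarY m
  exact inferInstanceAs
    ((volume : Measure ℝ).prod (volume : Measure (E m × ℝ))).IsAddHaarMeasure

/-- the substitution: `TF` of the transported function -/
theorem hsub (hLOA : T_LOA) (hLOI : T_LOI) (H : Z m → ℂ) (hH : TC H) (η : E m) (s c : ℝ)
    (hs : 0 < s) (hc : 0 < c) :
    ∃ G : Z m → ℂ, TC G ∧ (∀ z, TF G z = TF H (c • Lo η s z)) ∧
      ∀ ζ, G ζ ≠ 0 → ∃ ζ' : Z m, H ζ' ≠ 0 ∧ ζ = c • Ld η s ζ' := by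
  obtain ⟨-, a2, a3, a4, a5, -⟩ := hLOA m
  set η' : E m := -(s⁻¹ • η) with hη'
  have hs' : 0 < s⁻¹ := inv_pos.mpr hs
  have hinv1 : ∀ ζ : Z m, Ld η s (Ld η' s⁻¹ ζ) = ζ := by
    intro ζ
    rw [(a4 η η' s s⁻¹ ζ).2]
    have h1 : η + s • η' = 0 := by
      rw [hη', smul_neg, smul_smul, mul_inv_cancel₀ hs.ne', one_smul, add_neg_cancel]
    rw [h1, mul_inv_cancel₀ hs.ne']
    exact (a5 ζ).2
  have hinv2 : ∀ ζ : Z m, Ld η' s⁻¹ (Ld η s ζ) = ζ := by
    intro ζ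
    rw [(a4 η' η s⁻¹ s ζ).2]
    have h1 : η' + s⁻¹ • η = 0 := by
      rw [hη', neg_add_cancel]
    rw [h1, inv_mul_cancel₀ hs.ne']
    exact (a5 ζ).2
  obtain ⟨-, -, b3, -, -, b6⟩ := hLOI m η s hs
  obtain ⟨-, -, -, -, -, b6'⟩ := hLOI m η' s⁻¹ hs'
  let n : ℕ := Module.finrank ℝ (Z m)
  let κ : ℂ := (((s⁻¹) ^ (m + 2) : ℝ) : ℂ) * ((|((c⁻¹) ^ n)⁻¹|⁻¹ : ℝ) : ℂ)
  let Φ : Z m ≃ₜ Z m :=
    { toFun := fun ζ => Ld η' s⁻¹ (c⁻¹ • ζ)
      invFun := fun ζ => c • Ld η s ζ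
      left_inv := by
        intro ζ
        simp only
        rw [hinv1, smul_smul, mul_inv_cancel₀ hc.ne', one_smul]
      right_inv := by
        intro ζ
        simp only
        rw [smul_smul, inv_mul_cancel₀ hc.ne', one_smul, hinv2]
      continuous_toFun := b6'.continuous.comp (continuous_const_smul _)
      continuous_invFun := (continuous_const_smul c).comp b6.continuous }
  have hκ : κ ≠ 0 := by
    simp only [κ]
    apply mul_ne_zero
    · exact_mod_cast (by positivity : ((s⁻¹) ^ (m + 2) : ℝ) ≠ 0)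
    · have : (|((c⁻¹) ^ n)⁻¹|⁻¹ : ℝ) ≠ 0 := by positivity
      exact_mod_cast this
  refine ⟨fun ζ => κ * H (Ld η' s⁻¹ (c⁻¹ • ζ)), ⟨?_, ?_⟩, ?_, ?_⟩
  · apply contDiff_const.mul
    exact hH.1.comp (b6'.comp (contDiff_id.const_smul _))
  · apply HasCompactSupport.mul_left
    exact hH.2.comp_homeomorph Φ
  · intro z
    have h1 : ∀ ζ : Z m, e (ph z ζ) * (κ * H (Ld η' s⁻¹ (c⁻¹ • ζ))) =
        (fun w : Z m => e (ph z (c • w)) * (κ * H (Ld η' s⁻¹ w))) (c⁻¹ • ζ) := by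
      intro ζ
      simp only
      rw [smul_smul, mul_inv_cancel₀ hc.ne', one_smul]
    have h2 : TF (fun ζ => κ * H (Ld η' s⁻¹ (c⁻¹ • ζ))) z =
        |((c⁻¹) ^ n)⁻¹| • ∫ w : Z m, e (ph z (c • w)) * (κ * H (Ld η' s⁻¹ w)) := by
      unfold TF
      simp_rw [h1]
      have := haarZ m
      exact Measure.integral_comp_smul (volume : Measure (Z m))
        (fun w : Z m => e (ph z (c • w)) * (κ * H (Ld η' s⁻¹ w))) c⁻¹
    rw [h2]
    have h3 := b3 (fun w : Z m => e (ph z (c • w)) * (κ * H (Ld η' s⁻¹ w)))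
    simp only [hinv2] at h3
    have h4 : ∀ w : Z m, e (ph z (c • Ld η s w)) * (κ * H w) =
        κ * (e (ph (c • Lo η s z) w) * H w) := by
      intro w
      have : ph z (c • Ld η s w) = ph (c • Lo η s z) w := by
        rw [ph_smul_right, a3, ph_smul_left]
      rw [this]
      ring
    simp_rw [h4] at h3
    rw [integral_const_mul] at h3
    have h5 : TF H (c • Lo η s z) = ∫ w : Z m, e (ph (c • Lo η s z) w) * H w := rfl
    rw [← h5] at h3
    set I1 := ∫ w : Z m, e (ph z (c • w)) * (κ * H (Ld η' s⁻¹ w)) with hI1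
    have h6 : (((s⁻¹) ^ (m + 2) : ℝ) : ℂ) ≠ 0 := by
      exact_mod_cast (by positivity : ((s⁻¹) ^ (m + 2) : ℝ) ≠ 0)
    have h7 : (|((c⁻¹) ^ n)⁻¹| : ℝ) ≠ 0 := by positivity
    have h8 : ((|((c⁻¹) ^ n)⁻¹| : ℝ) : ℂ) ≠ 0 := by exact_mod_cast h7
    have h9 : κ = (((s⁻¹) ^ (m + 2) : ℝ) : ℂ) * ((|((c⁻¹) ^ n)⁻¹| : ℝ) : ℂ)⁻¹ := by
      simp only [κ]
      push_cast
      rfl
    rw [h9, mul_assoc] at h3
    have h10 := mul_left_cancel₀ h6 h3
    rw [← h10, Complex.real_smul, ← mul_assoc, mul_inv_cancel₀ h8, one_mul]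
  · intro ζ hζ
    refine ⟨Ld η' s⁻¹ (c⁻¹ • ζ), ?_, ?_⟩
    · intro h0
      apply hζ
      simp only [h0, mul_zero]
    · rw [hinv1, smul_smul, mul_inv_cancel₀ hc.ne', one_smul]

theorem hww (N : ℕ) (R δ : ℝ) (W : Pk m) (hR : 1 ≤ R) (z : Z m) :
    ww N R δ (R ^ δ) W z = hpw N (fc R δ W.1 z - zc W.2) := by
  have hR0 : 0 < R := by linarith
  have h : R ^ δ / R ^ δ = 1 := div_self (Real.rpow_pos_of_pos hR0 δ).ne'
  unfold ww hpw
  rw [h, one_mul]

end

theorem pf_HCH (hLWX : T_LWX) (hLOA : T_LOA) (hLOI : T_LOI) (hSCH : T_SCH) (hWT1 : T_WT1)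
    (hWT3 : T_WT3) : T_HCH := by
  intro m N
  obtain ⟨Ξ, χ, hΞ, hsupp, hχ, hχ0, hχ1⟩ := hLWX m
  obtain ⟨-, hdec⟩ := hSCH m Ξ hΞ
  obtain ⟨C₁, hC₁, hdec⟩ := hdec (2 * N + (m + 3))
  obtain ⟨C₂, hsum, -, -, -, hnear⟩ := hWT3 m (m + 3) le_rfl
  obtain ⟨-, -, -, -, -, hwadd, -⟩ := hWT1 m (2 * N)
  have hm0 : (0 : ℝ) ≤ (m : ℝ) := Nat.cast_nonneg m
  -- the constant
  set C : ℝ := 1 + C₁ * C₂ + ((m : ℝ) + 2) ^ (2 * N) with hC
  have hC₂0 : (0 : ℝ) ≤ (C₂ : ℝ) := C₂.2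
  have hC1 : 1 ≤ C := by
    have h1 : 0 ≤ C₁ * C₂ := mul_nonneg hC₁.le hC₂0
    have h2 : 0 ≤ ((m : ℝ) + 2) ^ (2 * N) := by positivity
    linarith
  refine ⟨C, hC1, ?_⟩
  intro R δ W hR hδ
  have hR0 : 0 < R := by linarith
  have hsR : 0 < sR R := by
    unfold sR
    exact inv_pos.mpr (Real.sqrt_pos.mpr hR0)
  have hc : 0 < R ^ (-δ) := Real.rpow_pos_of_pos hR0 _
  -- the lattice box
  let B : ℤ := ⌈R ^ δ + m + 1⌉
  let J : Finset (Zi m) := hbox m B
  let p : Zi m → ℝ := fun j => hpw N (zc j)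
  let H := hH Ξ J p (zc W.2)
  obtain ⟨G, hG, hTF, hGs⟩ := hsub hLOA hLOI H (hH_TC Ξ hΞ J p (zc W.2)) (ctr (sR R) W.1) (sR R)
    (R ^ (-δ)) hsR hc
  let Θ : Z m → ℝ := fun x => ∑ j ∈ J, p j * χ (x - zc j)
  have hval : ∀ z, TF G z = ((Θ (fc R δ W.1 z - zc W.2) : ℝ) : ℂ) := by
    intro z
    rw [hTF, hH_TF Ξ χ hΞ hχ]
    rfl
  have hΘ0 : ∀ x, 0 ≤ Θ x := by
    intro x
    apply Finset.sum_nonneg
    intro j _
    exact mul_nonneg (hpw_pos _ _).le (hχ0 _)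
  refine ⟨G, hG, ?_, ?_, ?_, ?_⟩
  · intro z
    rw [hval]
    exact ⟨Complex.ofReal_im _, by rw [Complex.ofReal_re]; exact hΘ0 _⟩
  · intro z
    rw [hval, hww N R δ W hR, Complex.norm_real, Real.norm_eq_abs, abs_of_nonneg (hΘ0 _)]
    set x := fc R δ W.1 z - zc W.2 with hx
    have h1 : ∀ j ∈ J, p j * χ (x - zc j) ≤ C₁ * hpw N x * wt (m + 3) (x - zc j) := by
      intro j _
      have h2 : χ (x - zc j) ≤ C₁ * wt (2 * N + (m + 3)) (x - zc j) := by
        have h3 := hdec (x - zc j)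
        rw [← hχ, Complex.norm_real, Real.norm_eq_abs, abs_of_nonneg (hχ0 _)] at h3
        exact h3
      have hp : 0 < p j := hpw_pos _ _
      have hw3 : 0 ≤ wt (m + 3) (x - zc j) := by unfold wt; positivity
      calc p j * χ (x - zc j) ≤ p j * (C₁ * wt (2 * N + (m + 3)) (x - zc j)) :=
            mul_le_mul_of_nonneg_left h2 hp.le
        _ = C₁ * (hpw N (zc j) * wt (2 * N) (x - zc j)) * wt (m + 3) (x - zc j) := by
            rw [hwadd]
            simp only [p]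
            ring
        _ ≤ C₁ * hpw N x * wt (m + 3) (x - zc j) := by
            apply mul_le_mul_of_nonneg_right _ hw3
            exact mul_le_mul_of_nonneg_left (hpw_mul_wt N x (zc j)) hC₁.le
    have h4 : ∑ j ∈ J, wt (m + 3) (x - zc j) ≤ C₂ := by
      have h5 := hsum 1 x one_pos le_rfl
      have h6 : ∑ j ∈ J, ENNReal.ofReal (wt (m + 3) ((1 : ℝ) • zc j - x)) ≤
          C₂ * ENNReal.ofReal (((1 : ℝ)⁻¹) ^ (m + 2)) :=
        (ENNReal.sum_le_tsum J).trans h5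
      have h7 : ∀ j : Zi m, wt (m + 3) ((1 : ℝ) • zc j - x) = wt (m + 3) (x - zc j) := by
        intro j
        unfold wt
        rw [one_smul, norm_sub_rev]
      simp only [h7] at h6
      rw [← ENNReal.ofReal_sum_of_nonneg (fun j _ => by unfold wt; positivity)] at h6
      simp only [inv_one, one_pow, ENNReal.ofReal_one, mul_one] at h6
      have h8 : ((C₂ : ℝ≥0) : ℝ≥0∞) = ENNReal.ofReal (C₂ : ℝ) := by
        rw [ENNReal.ofReal_coe_nnreal]
      rw [h8] at h6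
      exact (ENNReal.ofReal_le_ofReal_iff hC₂0).mp h6
    calc Θ x ≤ ∑ j ∈ J, C₁ * hpw N x * wt (m + 3) (x - zc j) := Finset.sum_le_sum h1
      _ = C₁ * hpw N x * ∑ j ∈ J, wt (m + 3) (x - zc j) := by rw [Finset.mul_sum]
      _ ≤ C₁ * hpw N x * C₂ := by
          apply mul_le_mul_of_nonneg_left h4
          exact mul_nonneg hC₁.le (hpw_pos _ _).le
      _ = (C₁ * C₂) * hpw N x := by ring
      _ ≤ C * hpw N x := by
          apply mul_le_mul_of_nonneg_right _ (hpw_pos _ _).le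
          have h2 : 0 ≤ ((m : ℝ) + 2) ^ (2 * N) := by positivity
          linarith
  · intro z hz
    rw [hval, hww N R δ W hR, Complex.ofReal_re]
    set x := fc R δ W.1 z - zc W.2 with hx
    obtain ⟨l, hl⟩ := hnear x
    have hlJ : l ∈ J := by
      apply mem_hbox
      have h1 : ‖zc l‖ ≤ ‖x‖ + ‖x - zc l‖ := by
        have : zc l = x - (x - zc l) := by abel
        calc ‖zc l‖ = ‖x - (x - zc l)‖ := by rw [← this]
          _ ≤ _ := norm_sub_le _ _
      have h2 : R ^ δ + m + 1 ≤ ((⌈R ^ δ + m + 1⌉ : ℤ) : ℝ) := Int.le_ceil _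
      linarith
    have h3 : 1 ≤ χ (x - zc l) := by
      apply hχ1
      linarith
    have h4 : hpw N x ≤ ((m : ℝ) + 2) ^ (2 * N) * p l := by
      have h5 := hpw_mul_wt N (zc l) x
      have h6 : (((m : ℝ) + 2) ^ (2 * N))⁻¹ ≤ wt (2 * N) (zc l - x) := by
        unfold wt
        apply inv_anti₀ (by positivity)
        apply pow_le_pow_left₀ (by positivity)
        rw [norm_sub_rev]
        linarith
      have h7 : hpw N x * (((m : ℝ) + 2) ^ (2 * N))⁻¹ ≤ hpw N (zc l) :=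
        (mul_le_mul_of_nonneg_left h6 (hpw_pos _ _).le).trans h5
      have h8 : 0 < ((m : ℝ) + 2) ^ (2 * N) := by positivity
      rw [← div_eq_mul_inv, div_le_iff₀ h8] at h7
      simp only [p]
      linarith
    have h9 : p l ≤ Θ x := by
      calc p l ≤ p l * χ (x - zc l) := by
            have : 0 ≤ p l := (hpw_pos _ _).le
            nlinarith
        _ ≤ Θ x := by
            apply Finset.single_le_sum (f := fun j => p j * χ (x - zc j)) _ hlJ
            intro j _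
            exact mul_nonneg (hpw_pos _ _).le (hχ0 _)
    have h10 : 0 ≤ ((m : ℝ) + 2) ^ (2 * N) := by positivity
    calc hpw N x ≤ ((m : ℝ) + 2) ^ (2 * N) * p l := h4
      _ ≤ ((m : ℝ) + 2) ^ (2 * N) * Θ x := mul_le_mul_of_nonneg_left h9 h10
      _ ≤ C * Θ x := by
          apply mul_le_mul_of_nonneg_right _ (hΘ0 _)
          have h1 : 0 ≤ C₁ * C₂ := mul_nonneg hC₁.le hC₂0
          linarith
  · intro ζ hζ
    obtain ⟨ζ', h1, h2⟩ := hGs ζ hζ
    refine ⟨ζ', hsupp ζ' ?_, h2⟩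
    intro h0
    apply h1
    simp only [H, hH, h0, mul_zero]

end Pool.Agent.H55.HLM
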